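import Pool.Agent.Toral.Stmt

/-!
# Shub's entropy conjecture for toral homology classes
-/

namespace Pool.Agent.Results.MP_b632a3_an.ToralClasses

open Pool.Agent.Toral

/-- (1) Every toral eigenvalue `μ` of a continuous self-map `f` of a compact space satisfies
`log |μ| ≤ h(f)`. (2) If the homology in degree `k` is toral then all eigenvalues of `f_*` in
degree `k` are toral. (3) All images of classes of the torus `(R/Z)^k` are toral. (4) There is a
class of the torus `(R/Z)^k` whose image under the homomorphism of tori of an integer matrix `B`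
has the `k x k` minors of `B` as periods. -/
theorem result :
    (∀ (X : Type) [UniformSpace X] [CompactSpace X] (m k : ℕ) (f : C(X, X)) (J : C(X, Torus m))
      (A : Matrix (Fin m) (Fin m) ℤ), (J.comp f).Homotopic ((torusMap A).comp J) →
      ∀ μ : ℂ, IsToralEigenvalue k f J μ →
        ((Real.log ‖μ‖ : ℝ) : EReal) ≤ Dynamics.coverEntropy (⇑f) Set.univ) ∧
    (∀ (X : Type) [TopologicalSpace X] (m k : ℕ) (f : C(X, X)) (J : C(X, Torus m)),
      HasToralHomology k J → ∀ μ : ℂ, Module.End.HasEigenvalue (Hmap k f) μ →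
        IsToralEigenvalue k f J μ) ∧
    (∀ (X : Type) [TopologicalSpace X] (m k : ℕ) (J : C(X, Torus m)) (τ : C(Torus k, X))
      (η : H k (Torus k)), IsToralClass k J (Hmap k τ η)) ∧
    (∀ k : ℕ, ∃ η : H k (Torus k), ∀ (m : ℕ) (B : Matrix (Fin m) (Fin k) ℤ)
      (I : Fin k → Fin m), Period k m (Hmap k (torusMap B) η) I =
        (((B.submatrix I id).det : ℤ) : ℂ)) :=
  ⟨fun _ _ _ _ _ f J A hA μ h => log_le_entropy f J A hA μ h,
    fun _ _ _ _ f J hX μ h => isToralEigenvalue_of_hasEigenvalue f J hX μ h,
    fun _ _ _ k J τ η => isToralClass_torus k J τ η, exists_Period⟩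

end Pool.Agent.Results.MP_b632a3_an.ToralClasses
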